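import Pool.Agent.Helper53.AM.G02
import Pool.Agent.Helper53.AM.G07
import Pool.Agent.Helper53.AM.G26
import Pool.Agent.Helper53.AM.G31
import Pool.Agent.Helper53.AM.G32
import Pool.Agent.Helper53.AM.G39

/-!
Slabs of minimal volume of the cube, all phases beyond `2 √2 - 2`, with explicit bounds for the
thresholds: with the number `t₁` given by `(√2 - t₁)² / 2 = (3 - √3 t₁)³ / 24` and
`1.0129 < t₁ < 1.01293`, the same in every dimension `n ≥ 3`, there is `t₂` (with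
`1.04 ≤ t₂ ≤ 1.1` when `n ≥ 4`) such that the slab of half-width `t` of smallest volume is in the
direction `f₂` for `2 √2 - 2 < t ≤ t₁`, in the direction `f₃` for `t₁ ≤ t < t₂`, and in the
direction `fₙ` for all `t > t₂`.
-/

namespace Pool.Agent.Results.MP_66ebcc_gt.AllPhases

open MeasureTheory

open Pool.Agent.M18 Pool.Agent.M18.Helper89 in
/-- The minimum of `V(a, t)` over unit vectors `a` is `V(f₂, t)` for `2 √2 - 2 < t ≤ t₁`, `V(f₃, t)`
for `t₁ ≤ t < t₂` and `V(fₙ, t)` for `t > t₂`; and `V(f₃, t) < V(f₂, t)` for `t₁ < t < √2`. -/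
theorem result : ∃ t₁ : ℝ, 1.0129 < t₁ ∧ t₁ < 1.01293 ∧
    (Real.sqrt 2 - t₁) ^ 2 / 2 = (3 - Real.sqrt 3 * t₁) ^ 3 / 24 ∧
    ∀ n : ℕ, 3 ≤ n → ∃ t₂ : ℝ, 1.04 ≤ t₂ ∧ (4 ≤ n → t₂ ≤ 1.1) ∧
      (∀ t : ℝ, t₁ < t → t < Real.sqrt 2 →
        volume {x : Fin n → ℝ | (∀ i, |x i| ≤ 1) ∧
          |∑ i : Fin n, (if (i : ℕ) < 3 then 1 / Real.sqrt 3 else 0) * x i| ≤ t} <
        volume {x : Fin n → ℝ | (∀ i, |x i| ≤ 1) ∧
          |∑ i : Fin n, (if (i : ℕ) < 2 then 1 / Real.sqrt 2 else 0) * x i| ≤ t}) ∧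
      ∀ t : ℝ, ∀ a : Fin n → ℝ, ∑ i, a i ^ 2 = 1 →
        (2 * Real.sqrt 2 - 2 < t → t ≤ t₁ →
          volume {x : Fin n → ℝ | (∀ i, |x i| ≤ 1) ∧
            |∑ i : Fin n, (if (i : ℕ) < 2 then 1 / Real.sqrt 2 else 0) * x i| ≤ t} ≤
          volume {x : Fin n → ℝ | (∀ i, |x i| ≤ 1) ∧ |∑ i, a i * x i| ≤ t}) ∧
        (t₁ ≤ t → t < t₂ →
          volume {x : Fin n → ℝ | (∀ i, |x i| ≤ 1) ∧
            |∑ i : Fin n, (if (i : ℕ) < 3 then 1 / Real.sqrt 3 else 0) * x i| ≤ t} ≤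
          volume {x : Fin n → ℝ | (∀ i, |x i| ≤ 1) ∧ |∑ i, a i * x i| ≤ t}) ∧
        (t₂ < t →
          volume {x : Fin n → ℝ | (∀ i, |x i| ≤ 1) ∧
            |∑ i : Fin n, (1 / Real.sqrt (n : ℝ)) * x i| ≤ t} ≤
          volume {x : Fin n → ℝ | (∀ i, |x i| ≤ 1) ∧ |∑ i, a i * x i| ≤ t}) := by
  obtain ⟨t₁, h1, h2, h3, hF⟩ := FA.first_assertion
  refine ⟨t₁, h1, h2, h3, fun n hn => ?_⟩
  obtain ⟨hF1, hF2, hF3⟩ := hF n hn
  obtain ⟨h2a, h2b⟩ := FA.sqrt2_b
  obtain ⟨h3a, h3b⟩ := FA.sqrt3_b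
  have h33 : (Real.sqrt 3) ^ 2 = 3 := Real.sq_sqrt (by norm_num)
  have e3 : ∀ t, 1.02 ≤ t → t ≤ Real.sqrt 3 →
      Helper88.Slab.prob (fun j : Fin n => if (j : ℕ) < 3 then 1 / Real.sqrt 3 else 0) t =
        1 - (3 - Real.sqrt 3 * t) ^ 3 / 24 := by
    intro t ht1 ht2
    exact FA.prob_f3 hn (by rw [div_le_iff₀ (by positivity)]; nlinarith) ht2
  rcases eq_or_lt_of_le hn with rfl | hn4
  · -- dimension three
    refine ⟨1.5, by norm_num, fun h => by omega, hF2, fun t a ha => ⟨?_, ?_, ?_⟩⟩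
    · intro ht ht'; exact hF1 t ht ht' a ha
    · intro ht ht'
      rcases le_total t 1.02 with h | h
      · exact hF3 t ht h a ha
      · apply FA.vol_le
        rw [e3 t h (by linarith)]
        exact SP.three_dim a ha h (by linarith)
    · intro ht
      rcases le_total t 1.6 with h | h
      · apply FA.vol_le
        have h4 : (fun _ : Fin 3 => 1 / Real.sqrt ((3 : ℕ) : ℝ)) =
            fun j : Fin 3 => if (j : ℕ) < 3 then 1 / Real.sqrt 3 else 0 := by
          funext j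
          rw [if_pos j.2]
          norm_num
        rw [h4, e3 t (by linarith) (by linarith)]
        exact SP.three_dim a ha (by linarith) (by linarith)
      · refine Slab.slab_le 3 (by norm_num) t (by linarith) ?_ a ha
        norm_num
        nlinarith
  · obtain ⟨t₂, g1, g2, g3, g4⟩ := SP.phases (n := n) hn4
    refine ⟨t₂, by linarith, fun _ => g2, hF2, fun t a ha => ⟨?_, ?_, ?_⟩⟩
    · intro ht ht'; exact hF1 t ht ht' a ha
    · intro ht ht'
      rcases le_total t 1.02 with h | h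
      · exact hF3 t ht h a ha
      · apply FA.vol_le
        rw [e3 t h (by linarith)]
        exact g3 t h ht' a ha
    · intro ht
      by_cases hc : t ≤ 1.826 ∧ (n = 4 → t ≤ 1.6428)
      · apply FA.vol_le
        rw [SP.prob_fn n (by linarith)]
        exact g4 t ht hc.1 hc.2 a ha
      · refine Slab.slab_le n (by omega) t (by linarith) ?_ a ha
        have hn0 : (4:ℝ) ≤ n := by exact_mod_cast hn4
        rcases le_or_gt t 1.826 with h5 | h5
        · have h6 : ¬ (n = 4 → t ≤ 1.6428) := fun h => hc ⟨h5, h⟩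
          push Not at h6
          obtain ⟨rfl, h7⟩ := h6
          norm_num
          nlinarith
        · have h8 : 0 < 40 / (21 * ((n : ℝ) - 1)) := by
            have : 0 < (n:ℝ) - 1 := by linarith
            positivity
          nlinarith

end Pool.Agent.Results.MP_66ebcc_gt.AllPhases
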